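import Pool.Agent.T9h98.DC.Defs

set_option autoImplicit false

open Set

namespace Pool.Agent.T9h98.DC

theorem hull_vert {d : ℕ} (F : Set (E d)) (hF : IsFace (demi d) F) : F = hull (vert F) := by
  obtain ⟨hne, hex⟩ := hF
  have hP : demi d = convexHull ℝ (pt '' {T : X d | par T = 0}) := demi_eq d
  have hcomp : IsCompact (demi d) := by
    rw [hP]; exact (Set.toFinite (pt '' {T : X d | par T = 0})).isCompact_convexHull (𝕜 := ℝ)
  have hconv : Convex ℝ (demi d) := convex_convexHull ℝ _
  have hFc : IsCompact F := hex.isCompact hcomp
  have hFv : Convex ℝ F := hex.convex hconv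
  have h1 := closure_convexHull_extremePoints hFc hFv
  have h2 : F.extremePoints ℝ ⊆ pt '' vert F := by
    intro x hx
    have h3 : x ∈ (demi d).extremePoints ℝ := hex.isExtreme.extremePoints_subset_extremePoints hx
    rw [hP] at h3
    obtain ⟨T, hT, rfl⟩ := extremePoints_convexHull_subset h3
    exact ⟨T, ⟨hT, extremePoints_subset hx⟩, rfl⟩
  apply subset_antisymm
  · conv_lhs => rw [← h1]
    exact closure_minimal (convexHull_mono h2)
      ((Set.toFinite (pt '' vert F)).isClosed_convexHull (𝕜 := ℝ))
  · exact convexHull_min (by rintro _ ⟨T, hT, rfl⟩; exact hT.2) hFv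

theorem apply_eq {d : ℕ} (l : E d →L[ℝ] ℝ) (x : E d) :
    l x = ∑ i, x i * l (EuclideanSpace.single i 1) := by
  have h : x = ∑ i, x i • (EuclideanSpace.single i (1 : ℝ) : E d) := by
    ext j
    simp [Pi.single_apply]
  conv_lhs => rw [h]
  rw [map_sum]
  refine Finset.sum_congr rfl fun i _ => ?_
  rw [map_smul, smul_eq_mul]

theorem z2 : ∀ x y : ZMod 2, x ≠ y → x = y + 1 := by decide

theorem z2b : ∀ x : ZMod 2, x + 1 ≠ x := by decide

theorem vert_eq {d : ℕ} (F : Set (E d)) (hF : IsFace (demi d) F) :
    ∃ a : Fin d → ℝ, vert F = {T : X d | par T = 0 ∧ ∀ T' : X d, par T' = 0 →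
      (∑ i, if T i = (if 0 ≤ a i then 0 else 1) then 0 else |a i|) ≤
        ∑ i, if T' i = (if 0 ≤ a i then 0 else 1) then 0 else |a i|} := by
  obtain ⟨hne, hex⟩ := hF
  obtain ⟨l, hl⟩ := hex hne
  refine ⟨fun i => l (EuclideanSpace.single i 1), ?_⟩
  have key : ∀ T : X d, l (pt T) = (∑ i, |l (EuclideanSpace.single i 1)|) -
      2 * ∑ i, if T i = (if 0 ≤ l (EuclideanSpace.single i 1) then 0 else 1) then 0
        else |l (EuclideanSpace.single i 1)| := by
    intro T
    rw [apply_eq, Finset.mul_sum, ← Finset.sum_sub_distrib]
    refine Finset.sum_congr rfl fun i _ => ?_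
    rw [pt_apply]
    rcases le_or_gt 0 (l (EuclideanSpace.single i 1)) with h | h
    · rw [if_pos h, abs_of_nonneg h]
      split_ifs <;> ring
    · rw [if_neg (not_le.2 h), abs_of_neg h]
      rcases zmod2 (T i) with h1 | h1 <;> rw [h1] <;> simp <;> ring
  ext T
  constructor
  · rintro ⟨h1, h2⟩
    refine ⟨h1, fun T' hT' => ?_⟩
    rw [hl] at h2
    have h3 := h2.2 (pt T') (by rw [demi_eq]; exact subset_convexHull ℝ _ ⟨T', hT', rfl⟩)
    rw [key, key] at h3
    linarith
  · rintro ⟨h1, h2⟩
    refine ⟨h1, ?_⟩
    rw [hl]
    refine ⟨by rw [demi_eq]; exact subset_convexHull ℝ _ ⟨T, h1, rfl⟩, ?_⟩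
    have h3 : demi d ⊆ {y | l y ≤ l (pt T)} := by
      rw [demi_eq]
      refine convexHull_min ?_ (convex_halfSpace_le l.isBoundedLinearMap.toIsLinearMap _)
      rintro _ ⟨T', hT', rfl⟩
      show l (pt T') ≤ l (pt T)
      rw [key, key]
      linarith [h2 T' hT']
    exact fun y hy => h3 hy

theorem par_add_single {d : ℕ} (T : X d) (i : Fin d) : par (T + Pi.single i 1) = par T + 1 := by
  rw [par_add, par_single]

theorem add_single_self {d : ℕ} (T : X d) (i : Fin d) : T + Pi.single i 1 + Pi.single i 1 = T := by
  rw [add_assoc, ← Pi.single_add]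
  have : (1 : ZMod 2) + 1 = 0 := by decide
  rw [this, Pi.single_zero, add_zero]

/-- a set `{T even | T = T₀ outside Z}` is of type A or B -/
theorem rk_of {d : ℕ} (hd : 1 ≤ d) (T₀ : X d) (h0 : par T₀ = 0) (Z : Finset (Fin d)) :
    ∃ m, Rk {T : X d | par T = 0 ∧ ∀ i ∉ Z, T i = T₀ i} m := by
  rcases Nat.lt_or_ge Z.card 3 with hZ | hZ
  · -- type B
    rcases Z.eq_empty_or_nonempty with hZ0 | ⟨y, hy⟩
    · subst hZ0
      refine ⟨0, Or.inr ⟨T₀ + Pi.single ⟨0, hd⟩ 1, {⟨0, hd⟩}, ?_, by simp, ?_⟩⟩
      · rw [par_add_single, h0, zero_add]
      · ext T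
        constructor
        · rintro ⟨_, h2⟩
          refine ⟨⟨0, hd⟩, by simp, ?_⟩
          rw [add_single_self]
          exact funext fun i => h2 i (by simp)
        · rintro ⟨i, hi, rfl⟩
          rw [Finset.mem_singleton] at hi
          subst hi
          rw [add_single_self]
          exact ⟨h0, fun _ _ => rfl⟩
    · refine ⟨Z.card - 1, Or.inr ⟨T₀ + Pi.single y 1, Z, ?_, ?_, ?_⟩⟩
      · rw [par_add_single, h0, zero_add]
      · have := Finset.card_pos.2 ⟨y, hy⟩
        omega
      · ext T
        constructor
        · rintro ⟨h1, h2⟩
          -- U = T + T₀ is supported in Z and even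
          by_cases hTy : T y = T₀ y
          · refine ⟨y, hy, ?_⟩
            rw [add_single_self]
            -- the other point of Z
            by_contra hne
            have : ∃ z, T z ≠ T₀ z := by
              by_contra hcon
              push_neg at hcon
              exact hne (funext hcon)
            obtain ⟨z, hz⟩ := this
            have hzZ : z ∈ Z := by
              by_contra hcon
              exact hz (h2 z hcon)
            have hzy : z ≠ y := fun h => hz (h ▸ hTy)
            have hT : T = T₀ + Pi.single z 1 := by
              funext i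
              by_cases hi : i = z
              · subst hi
                simpa using z2 _ _ hz
              · have : T i = T₀ i := by
                  by_contra hcon
                  have hiZ : i ∈ Z := by
                    by_contra hcon2
                    exact hcon (h2 i hcon2)
                  have hiy : i ≠ y := fun h => hcon (h ▸ hTy)
                  have h3 : ({i, z, y} : Finset (Fin d)) ⊆ Z := by
                    intro w hw
                    simp only [Finset.mem_insert, Finset.mem_singleton] at hw
                    rcases hw with rfl | rfl | rfl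
                    · exact hiZ
                    · exact hzZ
                    · exact hy
                  have h4 := Finset.card_le_card h3
                  rw [Finset.card_eq_three.2 ⟨i, z, y, hi, hiy, hzy, rfl⟩] at h4
                  omega
                simp [this, hi]
            rw [hT, par_add_single, h0] at h1
            exact absurd h1 (by decide)
          · have hex : ∃ z, z ≠ y ∧ T z ≠ T₀ z := by
              by_contra hcon
              push_neg at hcon
              have hT : T = T₀ + Pi.single y 1 := by
                funext i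
                by_cases hi : i = y
                · subst hi
                  simpa using z2 _ _ hTy
                · simp [hcon i hi, hi]
              rw [hT, par_add_single, h0] at h1
              exact absurd h1 (by decide)
            obtain ⟨z, hzy, hz⟩ := hex
            have hzZ : z ∈ Z := by
              by_contra hcon
              exact hz (h2 z hcon)
            refine ⟨z, hzZ, ?_⟩
            funext i
            by_cases hiy : i = y
            · subst hiy
              simpa [hzy.symm, Pi.single_apply, hzy] using z2 _ _ hTy
            · by_cases hiz : i = z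
              · subst hiz
                simpa [hiy, Pi.single_apply] using z2 _ _ hz
              · have : T i = T₀ i := by
                  by_contra hcon
                  have hiZ : i ∈ Z := by
                    by_contra hcon2
                    exact hcon (h2 i hcon2)
                  have h3 : ({i, z, y} : Finset (Fin d)) ⊆ Z := by
                    intro w hw
                    simp only [Finset.mem_insert, Finset.mem_singleton] at hw
                    rcases hw with rfl | rfl | rfl
                    · exact hiZ
                    · exact hzZ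
                    · exact hy
                  have h4 := Finset.card_le_card h3
                  rw [Finset.card_eq_three.2 ⟨i, z, y, hiz, hiy, hzy, rfl⟩] at h4
                  omega
                simp [this, hiy, hiz]
        · rintro ⟨z, hz, rfl⟩
          refine ⟨?_, fun i hi => ?_⟩
          · rw [par_add_single, par_add_single, h0]
            decide
          · have h3 : i ≠ y := fun h => hi (h ▸ hy)
            have h4 : i ≠ z := fun h => hi (h ▸ hz)
            simp [h3, h4]
  · -- type A
    obtain ⟨z, hz⟩ := Finset.card_pos.1 (by omega : 0 < Z.card)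
    refine ⟨Z.card, Or.inl ⟨hZ, T₀ + Pi.single z 1, Z, ?_, rfl, ?_⟩⟩
    · rw [par_add_single, h0, zero_add]
    · ext T
      constructor
      · rintro ⟨h1, h2⟩
        refine ⟨h1, fun i hi => ?_⟩
        have h3 : i ≠ z := fun h => hi (h ▸ hz)
        rw [h2 i hi]
        simp [h3]
      · rintro ⟨h1, h2⟩
        refine ⟨h1, fun i hi => ?_⟩
        have h3 : i ≠ z := fun h => hi (h ▸ hz)
        rw [h2 i hi]
        simp [h3]

theorem cls : S_CLS := by
  intro d hd F hF
  refine ⟨hull_vert F hF, ?_⟩
  obtain ⟨a, ha⟩ := vert_eq F hF
  rw [ha]
  set N : X d := fun i => if 0 ≤ a i then 0 else 1 with hN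
  set c : X d → ℝ := fun T => ∑ i, if T i = N i then 0 else |a i| with hc
  have hset : {T : X d | par T = 0 ∧ ∀ T' : X d, par T' = 0 →
      (∑ i, if T i = (if 0 ≤ a i then 0 else 1) then 0 else |a i|) ≤
        ∑ i, if T' i = (if 0 ≤ a i then 0 else 1) then 0 else |a i|} =
      {T : X d | par T = 0 ∧ ∀ T' : X d, par T' = 0 → c T ≤ c T'} := rfl
  rw [hset]
  have hterm : ∀ (T : X d) (i : Fin d), 0 ≤ (if T i = N i then 0 else |a i|) := by
    intro T i
    split_ifs
    · exact le_rfl
    · exact abs_nonneg _
  have hc0 : ∀ T, 0 ≤ c T := fun T => Finset.sum_nonneg fun i _ => hterm T i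
  have hcz : ∀ T, c T = 0 ↔ ∀ i, a i ≠ 0 → T i = N i := by
    intro T
    rw [hc]
    simp only
    rw [Finset.sum_eq_zero_iff_of_nonneg (fun i _ => hterm T i)]
    constructor
    · intro h i hi
      have := h i (Finset.mem_univ i)
      by_contra hcon
      rw [if_neg hcon] at this
      exact hi (abs_eq_zero.1 this)
    · intro h i _
      by_cases hi : a i = 0
      · simp [hi]
      · rw [if_pos (h i hi)]
  by_cases hex : ∃ T₀ : X d, par T₀ = 0 ∧ c T₀ = 0
  · obtain ⟨T₀, h0, h1⟩ := hex
    have h2 : {T : X d | par T = 0 ∧ ∀ T' : X d, par T' = 0 → c T ≤ c T'} =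
        {T : X d | par T = 0 ∧ ∀ i ∉ (Finset.univ.filter fun i => a i = 0), T i = T₀ i} := by
      ext T
      constructor
      · rintro ⟨h3, h4⟩
        refine ⟨h3, fun i hi => ?_⟩
        have h5 : c T = 0 := le_antisymm (h1 ▸ h4 T₀ h0) (hc0 T)
        simp only [Finset.mem_filter, Finset.mem_univ, true_and] at hi
        rw [(hcz T).1 h5 i hi, (hcz T₀).1 h1 i hi]
      · rintro ⟨h3, h4⟩
        refine ⟨h3, fun T' _ => ?_⟩
        have h5 : c T = 0 := by
          rw [hcz]
          intro i hi
          rw [h4 i (by simpa using hi), (hcz T₀).1 h1 i hi]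
        rw [h5]
        exact hc0 T'
    rw [h2]
    exact rk_of hd T₀ h0 _
  · push_neg at hex
    have hcN : c N = 0 := (hcz N).2 fun _ _ => rfl
    have hNp : par N = 1 := (zmod2 (par N)).resolve_left fun h => hex N h hcN
    have ha0 : ∀ i, a i ≠ 0 := by
      intro i hi
      refine hex (N + Pi.single i 1) ?_ ?_
      · rw [par_add_single, hNp]
        decide
      · rw [hcz]
        intro j hj
        have : j ≠ i := fun h => hj (h ▸ hi)
        simp [this]
    obtain ⟨i₀, -, hi₀⟩ := Finset.exists_min_image Finset.univ (fun i => |a i|)
      ⟨⟨0, hd⟩, Finset.mem_univ _⟩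
    have hge : ∀ T : X d, par T = 0 → ∃ j, T j ≠ N j := by
      intro T hT
      by_contra hcon
      push_neg at hcon
      have : T = N := funext hcon
      rw [this, hNp] at hT
      exact absurd hT (by decide)
    have hcs : ∀ i, c (N + Pi.single i 1) = |a i| := by
      intro i
      rw [hc]
      simp only
      rw [Finset.sum_eq_single i]
      · rw [if_neg]
        simp
      · intro j _ hj
        rw [if_pos]
        simp [hj]
      · intro h
        exact absurd (Finset.mem_univ i) h
    have hle : ∀ (T : X d) (j : Fin d), T j ≠ N j → |a j| ≤ c T := by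
      intro T j hj
      have := Finset.single_le_sum (fun i _ => hterm T i) (Finset.mem_univ j)
      rwa [if_neg hj] at this
    refine ⟨(Finset.univ.filter fun i => |a i| = |a i₀|).card - 1, Or.inr
      ⟨N, Finset.univ.filter fun i => |a i| = |a i₀|, hNp, ?_, ?_⟩⟩
    · have : 0 < (Finset.univ.filter fun i => |a i| = |a i₀|).card :=
        Finset.card_pos.2 ⟨i₀, by simp⟩
      omega
    · ext T
      constructor
      · rintro ⟨h3, h4⟩
        obtain ⟨j, hj⟩ := hge T h3
        have h5 : c T ≤ |a i₀| := by
          rw [← hcs i₀]
          refine h4 _ ?_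
          rw [par_add_single, hNp]
          decide
        refine ⟨j, ?_, ?_⟩
        · simp only [Finset.mem_filter, Finset.mem_univ, true_and]
          exact le_antisymm ((hle T j hj).trans h5) (hi₀ j (Finset.mem_univ j))
        · funext k
          by_cases hk : k = j
          · subst hk
            simpa using z2 _ _ hj
          · have : T k = N k := by
              by_contra hcon
              have h6 : |a k| + |a j| ≤ c T := by
                have h7 : ∑ i ∈ ({k, j} : Finset (Fin d)), (if T i = N i then 0 else |a i|) ≤ c T :=
                  Finset.sum_le_sum_of_subset_of_nonneg (Finset.subset_univ _)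
                    (fun i _ _ => hterm T i)
                rwa [Finset.sum_pair hk, if_neg hcon, if_neg hj] at h7
              have h8 := hi₀ k (Finset.mem_univ k)
              have h9 := abs_pos.2 (ha0 j)
              linarith
            simp [this, hk]
      · rintro ⟨i, hi, rfl⟩
        simp only [Finset.mem_filter, Finset.mem_univ, true_and] at hi
        refine ⟨?_, fun T' hT' => ?_⟩
        · rw [par_add_single, hNp]
          decide
        · rw [hcs, hi]
          obtain ⟨j, hj⟩ := hge T' hT'
          exact (hi₀ j (Finset.mem_univ j)).trans (hle T' j hj)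

end Pool.Agent.T9h98.DC
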