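import Pool.Agent.T9h98.DC.Main
import Pool.Agent.T9h98.DC.Cls
import Pool.Agent.T9h29.DC.Dim
import Pool.Agent.T9h66.DC.Face
import Pool.Agent.T9h66.DC.Nf
import Pool.Agent.T9h8.DC.Dist
import Pool.Agent.T9h8.DC.Int
import Pool.Agent.T9h8.DC.Mono

/-! Project DC: assembly (all pieces). -/

namespace Pool.Agent.T9h98.DC

theorem all : Main :=
  main Pool.Agent.T9h29.DC.dim cls Pool.Agent.T9h66.DC.face Pool.Agent.T9h8.DC.mono
    (Pool.Agent.T9h66.DC.nf Pool.Agent.T9h8.DC.mono) Pool.Agent.T9h29.DC.sym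
    Pool.Agent.T9h29.DC.fiso Pool.Agent.T9h8.DC.dist Pool.Agent.T9h8.DC.int

end Pool.Agent.T9h98.DC
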