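import Pool.Agent.T9h98.DC.Polytope

/-!
# Project DC (helper98, MP_727bc7_co): the flag orbits of the demicube

Goal: for `d ≥ 5` the `d`-demicube (convex hull of the vertices of the cube `{1,-1}^d` with an even number
of entries `-1`) has exactly `d - 2` flag orbits under its isometry group; so `N_k ≥ k + 3` for all
`k ≥ 3` (known: `k + 2`).

Vertices of the cube are coded by `T : Fin d → ZMod 2` (`pt T` has the entry `-1` at `i` iff `T i ≠ 0`),
the even ones have `par T = 0`. The proper faces of the demicube are (as sets of vertices)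
`fA N Z = {T even | T = N outside Z}`, `3 ≤ #Z < d` (dimension `#Z`) and, for odd `N`,
`fB N I = {N + e_i | i ∈ I}` (simplices of dimension `#I - 1`).

Each `S_...` is one independent piece, its docstring contains the complete proof.
-/

set_option autoImplicit false

open Set

namespace Pool.Agent.T9h98.DC

/-- codes of the vertices of the cube -/
abbrev X (d : ℕ) : Type := Fin d → ZMod 2

/-- the vertex of the cube with the code `T` -/
noncomputable def pt {d : ℕ} (T : X d) : E d := WithLp.toLp 2 fun i => if T i = 0 then 1 else -1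

/-- the parity -/
def par {d : ℕ} (T : X d) : ZMod 2 := ∑ i, T i

/-- convex hull of the vertices with codes in `M` -/
noncomputable def hull {d : ℕ} (M : Set (X d)) : Set (E d) := convexHull ℝ (pt '' M)

/-- the codes of the vertices of the demicube in `F` -/
def vert {d : ℕ} (F : Set (E d)) : Set (X d) := {T | par T = 0 ∧ pt T ∈ F}

/-- type A -/
def fA {d : ℕ} (N : X d) (Z : Finset (Fin d)) : Set (X d) := {T | par T = 0 ∧ ∀ i ∉ Z, T i = N i}

/-- type B -/
def fB {d : ℕ} (N : X d) (I : Finset (Fin d)) : Set (X d) := {T | ∃ i ∈ I, T = N + Pi.single i 1}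

/-- `M` is of type A or B and of rank `m` -/
def Rk {d : ℕ} (M : Set (X d)) (m : ℕ) : Prop :=
  (3 ≤ m ∧ ∃ (N : X d) (Z : Finset (Fin d)), par N = 1 ∧ Z.card = m ∧ M = fA N Z) ∨
    ∃ (N : X d) (I : Finset (Fin d)), par N = 1 ∧ I.card = m + 1 ∧ M = fB N I

theorem zmod2 (x : ZMod 2) : x = 0 ∨ x = 1 := by
  fin_cases x
  · exact Or.inl rfl
  · exact Or.inr rfl

theorem pt_apply {d : ℕ} (T : X d) (i : Fin d) : pt T i = if T i = 0 then 1 else -1 := rfl

theorem par_add {d : ℕ} (T U : X d) : par (T + U) = par T + par U := by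
  simp [par, Finset.sum_add_distrib]

theorem par_single {d : ℕ} (i : Fin d) : par (Pi.single i 1 : X d) = 1 := by
  simp [par]

theorem prod_pt {d : ℕ} (T : X d) : ∏ i, pt T i = if par T = 0 then 1 else -1 := by
  have h : ∀ s : Finset (Fin d), ∏ i ∈ s, pt T i = if ∑ i ∈ s, T i = 0 then 1 else -1 := by
    intro s
    classical
    induction s using Finset.induction with
    | empty => simp
    | insert a s ha ih =>
      rw [Finset.prod_insert ha, Finset.sum_insert ha, ih, pt_apply]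
      rcases zmod2 (T a) with h1 | h1 <;> rcases zmod2 (∑ i ∈ s, T i) with h2 | h2 <;>
        rw [h1, h2] <;> norm_num <;> decide
  exact h _

theorem demi_eq (d : ℕ) : demi d = hull {T : X d | par T = 0} := by
  unfold demi hull
  congr 1
  ext x
  constructor
  · rintro ⟨h1, h2⟩
    refine ⟨fun i => if x i = 1 then 0 else 1, ?_, ?_⟩
    · have hx : pt (fun i => if x i = 1 then (0 : ZMod 2) else 1) = x := by
        ext i
        rw [pt_apply]
        rcases h1 i with h | h <;> rw [h] <;> norm_num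
      have := prod_pt (fun i => if x i = 1 then (0 : ZMod 2) else 1)
      rw [hx, h2] at this
      by_contra hcon
      rw [if_neg (show ¬ par (fun i => if x i = 1 then (0 : ZMod 2) else 1) = 0 from hcon)] at this
      norm_num at this
    · ext i
      rw [pt_apply]
      rcases h1 i with h | h <;> rw [h] <;> norm_num
  · rintro ⟨T, hT, rfl⟩
    refine ⟨fun i => ?_, ?_⟩
    · rw [pt_apply]
      split_ifs <;> simp
    · rw [prod_pt, if_pos (show par T = 0 from hT)]

/-- the set `{π 0, …, π (k-1)}` -/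
def J {d : ℕ} (π : Equiv.Perm (Fin d)) (k : ℕ) : Finset (Fin d) :=
  Finset.univ.filter fun x => (π.symm x : ℕ) < k

/-- **DIM.** A strictly increasing chain of `d` nonempty faces, different from `P`, has dimensions
`0, …, d-1`; and a set with interior points has dimension `d`.
Proof. If `F ⊂ F'` are faces, `F = {x ∈ P | l x maximal}`, take `x ∈ F`, `y ∈ F' \ F`: `l y < l x`, so
`y - x ∈ vectorSpan F'` is not in `ker l ⊇ vectorSpan F` (and `vectorSpan F ≤ vectorSpan F'`); so the
finranks increase strictly, the last one is `< finrank (vectorSpan P) ≤ d` (`P` is a face of itself, `l = 0`).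
A strictly increasing `f : Fin d → ℕ` with values `< d` is `f i = i`.
Second part: a ball spans. -/
def S_DIM : Prop :=
  (∀ (d : ℕ) (P : Set (E d)) (F : Fin d → Set (E d)), (∀ i, IsFace P (F i)) → StrictMono F →
    (∀ i, F i ≠ P) → ∀ i, Module.finrank ℝ (vectorSpan ℝ (F i)) = i) ∧
  ∀ (d : ℕ) (P : Set (E d)), (interior P).Nonempty → Module.finrank ℝ (vectorSpan ℝ P) = d

/-- **CLS.** Every face is the hull of its vertices, which form a set of type A or B.
Proof. `F` is compact and convex, its extreme points are extreme points of `demi d`, so among the points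
`pt T`, `par T = 0` (`closure_convexHull_extremePoints`, `IsExposed.isExtreme`,
`IsExtreme.extremePoints_subset_extremePoints`, `extremePoints_convexHull_subset`), so `F = hull (vert F)`.
Let `l` be the functional, `a i = l (e_i)`, `b = |a|`, `N i = 0` iff `a i ≥ 0`. For `par T = 0`:
`l (pt T) = ∑ b - 2 ∑_(T i ≠ N i) b i`; `vert F` is the set of the even `T` with minimal
`c T = ∑_(T i ≠ N i) b i`. If there is an even `T₀` with `c T₀ = 0` (this is so if `N` is even or some `a z = 0`),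
`vert F = {T even | T i = T₀ i whenever a i ≠ 0}`; with `Z = {a = 0}`: for `#Z ≥ 3` this is `fA (T₀ + e_z) Z`,
`z ∈ Z`; for `#Z ≤ 1` it is `{T₀} = fB (T₀ + e_i) {i}`; for `Z = {y, z}` it is `{T₀, T₀ + e_y + e_z} =
fB (T₀ + e_y) {y, z}`. Otherwise `N` is odd and all `b i > 0`, `vert F = fB N {i | b i minimal}`. -/
def S_CLS : Prop :=
  ∀ d : ℕ, 1 ≤ d → ∀ F : Set (E d), IsFace (demi d) F → F = hull (vert F) ∧ ∃ m, Rk (vert F) m

/-- **FACE.** Conversely. Proof. Functional `l x = ∑ a i x i`. Type A: `a = 0` on `Z`, `a i = 1` if `N i = 0`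
and `-1` otherwise outside `Z`: `l (pt T) ≤ #Zᶜ` with equality iff `T = N` outside `Z`. Type B:
`a i = ± 1` on `I` and `± 2` outside, sign `+` iff `N i = 0`: `l (pt T) = ∑ |a| - 2 ∑_(T i ≠ N i) |a i|`; the
second sum is `≥ 1` as `T ≠ N` (parity), with equality iff `T = N + e_i`, `i ∈ I`. The set where
`l` is maximal on `hull {even}` is the hull of the vertices where it is maximal, and these are the
only vertices in it. -/
def S_FACE : Prop :=
  ∀ (d : ℕ) (M : Set (X d)) (m : ℕ), Rk M m → IsFace (demi d) (hull M) ∧ vert (hull M) = M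

/-- **MONO.** The rank is strictly monotone; it is at most `d`, and `d` only for the set of all even `T`;
sets of type A (rank `≥ 3`) are not contained in sets of type B.
Proof. `fA N Z ⊆ fB N' I'`, `x, y, z ∈ Z` different, `T ∈ fA N Z`: `T = N' + e_i`, `T + e_x + e_y = N' + e_j`
gives `e_i + e_j = e_x + e_y`, so `i ∈ {x, y}`; also `i ∈ {x, z}`, `i ∈ {y, z}`, impossible.
`fA N Z ⊆ fA N' Z'`: `T, T + e_x + e_y ∈ fA N' Z'` gives `x, y ∈ Z'`; so `Z ⊆ Z'`, and `Z = Z'` gives equality.
`fB N I ⊆ fA N' Z'`, `i ≠ j` in `I`: `N + e_i`, `N + e_j` agree outside `Z'`, so `i, j ∈ Z'`: `I ⊆ Z'` if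
`#I ≥ 2`. `fB N I ⊂ fB N' I'`: cardinalities. -/
def S_MONO : Prop :=
  (∀ (d : ℕ) (M M' : Set (X d)) (m m' : ℕ), Rk M m → Rk M' m' → M ⊂ M' → m < m') ∧
  (∀ (d : ℕ) (M : Set (X d)) (m : ℕ), Rk M m → m ≤ d ∧ (m = d → M = {T : X d | par T = 0})) ∧
  (∀ (d : ℕ) (N N' : X d) (Z I : Finset (Fin d)), 3 ≤ Z.card → ¬ fA N Z ⊆ fB N' I) ∧
  (∀ (d : ℕ) (N N' : X d) (Z Z' : Finset (Fin d)), 3 ≤ Z.card → fA N Z ⊆ fA N' Z' →
    Z ⊆ Z' ∧ fA N' Z' = fA N Z') ∧
  (∀ (d : ℕ) (N N' : X d) (I Z' : Finset (Fin d)), par N = 1 → 2 ≤ I.card → fB N I ⊆ fA N' Z' →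
    I ⊆ Z' ∧ fA N' Z' = fA N Z')

/-- **NF** (uses `S_MONO` as hypothesis). Normal form of a chain.
Proof. Let `s` be the number of the `i` with `M i` of type B; if `M j` is of type B and `i < j` then so is `M i`
(`S_MONO` (iii)), and the ranks `0, 1, 2` are of type B, so `M i` is of type B iff `i < s`, `3 ≤ s ≤ d`. Let
`M (s-1) = fB N I`, `#I = s`. For `i < s` `M i ⊆ fB N I` has `i + 1` elements, so it is `fB N (I_i)`,
`I_i = {x ∈ I | N + e_x ∈ M i}`. For `i ≥ s` `M i = fA N_i Z_i`, `#Z_i = i`, and `I ⊆ Z_i`, `M i = fA N Z_i`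
by `S_MONO` (v); the `Z_i` increase by (iv). So there are `∅ = J_0 ⊆ J_1 ⊆ ⋯ ⊆ J_d = univ`, `#J_k = k`, with
`M i = fB N J_(i+1)` for `i < s`, `M i = fA N J_i` for `i ≥ s` (`J_s = I`). Let `π k` be the only element of
`J_(k+1) \ J_k`. -/
def S_NF : Prop :=
  ∀ d : ℕ, 3 ≤ d → ∀ M : Fin d → Set (X d), StrictMono M → (∀ i : Fin d, Rk (M i) i) →
    ∃ (s : ℕ) (N : X d) (π : Equiv.Perm (Fin d)), 3 ≤ s ∧ s ≤ d ∧ par N = 1 ∧
      (∀ i : Fin d, (i : ℕ) < s → M i = fB N (J π (i + 1))) ∧
      ∀ i : Fin d, s ≤ (i : ℕ) → M i = fA N (J π i)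

/-- **SYM.** Signed permutations: `(g x) i = ± x (σ⁻¹ i)`, the sign is `+` iff `K i = 0`
(`LinearIsometryEquiv.piLpCongrLeft` and sign changes, or directly). -/
def S_SYM : Prop :=
  ∀ (d : ℕ) (σ : Equiv.Perm (Fin d)) (K : X d), ∃ g : E d ≃ₗᵢ[ℝ] E d,
    ∀ T : X d, g (pt T) = pt fun x => T (σ.symm x) + K x

/-- **FISO.** Isometries of `P` map faces to faces. Proof. `g` is affine
(`IsometryEquiv.toRealAffineIsometryEquiv`), `g x = L x + c`; for `F = {x ∈ P | l x maximal}` use `l ∘ L⁻¹`. -/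
def S_FISO : Prop :=
  ∀ (d : ℕ) (P F : Set (E d)) (g : E d ≃ᵢ E d), g '' P = P → IsFace P F → IsFace P (g '' F)

/-- **DIST.** Proof. `dist (pt T) (pt U) ^ 2 = 4 #{i | T i ≠ U i}`; two elements of `fB N I` differ at at most
two places, so all distances in the hull are `≤ √8 < 4` (`convexHull_exists_dist_ge2`). In `fA N Z` with
`#Z ≥ 4` there are (change `N` at one place of `Z` if it is odd) two even elements which differ at four
places. -/
def S_DIST : Prop :=
  (∀ (d : ℕ) (N : X d) (I : Finset (Fin d)), ∀ x ∈ hull (fB N I), ∀ y ∈ hull (fB N I), dist x y < 4) ∧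
  ∀ (d : ℕ) (N : X d) (Z : Finset (Fin d)), 4 ≤ Z.card →
    ∃ x ∈ hull (fA N Z), ∃ y ∈ hull (fA N Z), 4 ≤ dist x y

/-- **INT.** Proof. `interior_convexHull_nonempty_iff_affineSpan_eq_top`; for different `i, j, k` the
vectors `pt 0 - pt (e_i + e_j) = 2 e_i + 2 e_j` etc. are in the `vectorSpan`, so `4 e_i` is. -/
def S_INT : Prop := ∀ d : ℕ, 3 ≤ d → (interior (demi d)).Nonempty

/-- the theorem -/
def Main : Prop :=
  (∀ d : ℕ, 5 ≤ d → IsKOrbit (d - 2) (demi d)) ∧
  ∀ k : ℕ, 3 ≤ k → ∀ N : ℕ, (∀ (d : ℕ) (P : Set (E d)), IsKOrbit k P → d < N) → k + 3 ≤ N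

end Pool.Agent.T9h98.DC
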