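import Pool.Agent.T9h98.DC.Defs

set_option autoImplicit false

open Set

namespace Pool.Agent.T9h98.DC

theorem card_J {d : ℕ} (π : Equiv.Perm (Fin d)) (k : ℕ) (hk : k ≤ d) : (J π k).card = k := by
  have h : J π k = (Finset.univ.filter fun x : Fin d => (x : ℕ) < k).map π.toEmbedding := by
    ext x
    simp only [J, Finset.mem_filter, Finset.mem_univ, true_and, Finset.mem_map,
      Equiv.coe_toEmbedding]
    constructor
    · intro h
      exact ⟨π.symm x, h, by simp⟩
    · rintro ⟨y, hy, rfl⟩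
      simpa using hy
  rw [h, Finset.card_map, Fin.card_filter_val_lt]
  omega

theorem mem_J {d : ℕ} (π : Equiv.Perm (Fin d)) (k : ℕ) (x : Fin d) :
    x ∈ J π k ↔ (π.symm x : ℕ) < k := by
  simp [J]

theorem J_mono {d : ℕ} (π : Equiv.Perm (Fin d)) {k l : ℕ} (h : k ≤ l) : J π k ⊆ J π l := by
  intro x hx
  rw [mem_J] at hx ⊢
  omega

theorem strictMono_fin {d : ℕ} (f : Fin d → ℕ) (hf : StrictMono f) (h : ∀ i, f i < d) :
    ∀ i, f i = i := by
  have h1 : StrictMono (fun i : Fin d => (⟨f i, h i⟩ : Fin d)) := fun i j hij => hf hij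
  have h2 : (fun i : Fin d => (⟨f i, h i⟩ : Fin d)) = id := by
    refine (h1.range_inj strictMono_id).1 ?_
    rw [range_id]
    exact (Finite.injective_iff_surjective.1 h1.injective).range_eq
  intro i
  have := congrFun h2 i
  simpa using congrArg Fin.val this

/-- the type of a flag -/
def Ty {d : ℕ} (Φ : Flag (demi d)) (s : ℕ) : Prop :=
  3 ≤ s ∧ s ≤ d ∧ ∃ (N : X d) (π : Equiv.Perm (Fin d)), par N = 1 ∧
    (∀ i : Fin d, (i : ℕ) < s → vert (Φ.face i) = fB N (J π (i + 1))) ∧
    ∀ i : Fin d, s ≤ (i : ℕ) → vert (Φ.face i) = fA N (J π i)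

theorem exists_ty (hD : S_DIM) (hC : S_CLS) (hM : S_MONO) (hN : S_NF) (hInt : S_INT) {d : ℕ}
    (hd : 3 ≤ d) (Φ : Flag (demi d)) : ∃ s, Ty Φ s := by
  have h1 : ∀ i, Φ.face i = hull (vert (Φ.face i)) := fun i => (hC d (by omega) _ (Φ.isFace i)).1
  have h2 : ∀ i, ∃ m, Rk (vert (Φ.face i)) m := fun i => (hC d (by omega) _ (Φ.isFace i)).2
  choose r hr using h2
  have h3 : StrictMono fun i => vert (Φ.face i) := by
    intro i j hij
    refine lt_of_le_of_ne (fun T hT => ⟨hT.1, Φ.mono hij.le hT.2⟩) fun heq => ?_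
    have h4 : Φ.face i = Φ.face j := by
      rw [h1 i, h1 j]
      exact congrArg hull heq
    have h5 := Φ.dim i
    rw [h4, Φ.dim j] at h5
    exact absurd h5 (Nat.ne_of_gt hij)
  have h4 : StrictMono r := fun i j hij => hM.1 d _ _ _ _ (hr i) (hr j) (h3 hij)
  have h5 : ∀ i, r i < d := by
    intro i
    obtain ⟨h6, h7⟩ := hM.2.1 d _ _ (hr i)
    refine lt_of_le_of_ne h6 fun h8 => ?_
    have h9 : Φ.face i = demi d := by
      rw [h1 i, h7 h8, demi_eq]
    have h10 := hD.2 d (demi d) (hInt d hd)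
    rw [← h9, Φ.dim i] at h10
    exact absurd h10 (Nat.ne_of_lt i.2)
  have h6 := strictMono_fin r h4 h5
  obtain ⟨s, N, π, h7, h8, h9, h10, h11⟩ := hN d hd _ h3 (fun i => by rw [← h6 i]; exact hr i)
  exact ⟨s, h7, h8, N, π, h9, h10, h11⟩

theorem image_hull {d : ℕ} (g : E d ≃ₗᵢ[ℝ] E d) (τ : X d → X d) (hg : ∀ T, g (pt T) = pt (τ T))
    (M : Set (X d)) : g '' hull M = hull (τ '' M) := by
  unfold hull
  have h1 : (g '' convexHull ℝ (pt '' M)) = convexHull ℝ (g '' (pt '' M)) :=
    (g.toLinearEquiv.toLinearMap).image_convexHull (pt '' M)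
  rw [h1, image_image, image_image]
  congr 1
  exact image_congr fun T _ => hg T

theorem equiv_of_ty (hC : S_CLS) (hS : S_SYM) {d : ℕ} (hd : 3 ≤ d) (Φ Ψ : Flag (demi d)) (s : ℕ)
    (h1 : Ty Φ s) (h2 : Ty Ψ s) : (flagSetoid (demi d)).r Φ Ψ := by
  obtain ⟨-, -, N, π, hN, hB, hA⟩ := h1
  obtain ⟨-, -, N', π', hN', hB', hA'⟩ := h2
  set σ : Equiv.Perm (Fin d) := π.symm.trans π' with hσ
  set K : X d := fun x => N' x + N (σ.symm x) with hK
  obtain ⟨g, hg⟩ := hS d σ K
  set τ : X d → X d := fun T x => T (σ.symm x) + K x with hτ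
  have hJ : ∀ (x : Fin d) (k : ℕ), x ∈ J π' k ↔ σ.symm x ∈ J π k := by
    intro x k
    rw [mem_J, mem_J, hσ]
    simp
  have z4 : ∀ a b c : ZMod 2, a + (b + c) = c ↔ a = b := by decide
  have hpar : ∀ T, par (τ T) = par T := by
    intro T
    have h3 : par (τ T) = par T + (par N' + par N) := by
      simp only [hτ, hK, par, Finset.sum_add_distrib]
      rw [Equiv.sum_comp σ.symm T, Equiv.sum_comp σ.symm N]
    rw [h3, hN, hN']
    have : ∀ a : ZMod 2, a + (1 + 1) = a := by decide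
    exact this _
  -- inverse map
  set τ' : X d → X d := fun T x => T (σ x) + K (σ x) with hτ'
  have hττ' : ∀ T, τ (τ' T) = T := by
    intro T
    funext x
    simp only [hτ, hτ', Equiv.apply_symm_apply]
    have : ∀ a b : ZMod 2, a + b + b = a := by decide
    exact this _ _
  have hpar' : ∀ T, par (τ' T) = par T := fun T => by rw [← hpar (τ' T), hττ']
  have hfA : ∀ k, τ '' fA N (J π k) = fA N' (J π' k) := by
    intro k
    ext T
    constructor
    · rintro ⟨U, ⟨h3, h4⟩, rfl⟩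
      refine ⟨by rw [hpar]; exact h3, fun i hi => ?_⟩
      have h5 := h4 (σ.symm i) (fun h => hi ((hJ i k).2 h))
      simp only [hτ, hK, h5]
      have : ∀ a b : ZMod 2, a + (b + a) = b := by decide
      exact this _ _
    · rintro ⟨h3, h4⟩
      refine ⟨τ' T, ⟨by rw [hpar']; exact h3, fun i hi => ?_⟩, hττ' T⟩
      have h5 := h4 (σ i) (fun h => hi (by simpa using (hJ (σ i) k).1 h))
      simp only [hτ', hK, h5, Equiv.symm_apply_apply]
      have : ∀ a b : ZMod 2, a + (a + b) = b := by decide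
      exact this _ _
  have hfB : ∀ k, τ '' fB N (J π k) = fB N' (J π' k) := by
    intro k
    have h6 : ∀ i, τ (N + Pi.single i 1) = N' + Pi.single (σ i) 1 := by
      intro i
      funext x
      have h7 : (Pi.single i 1 : X d) (σ.symm x) = (Pi.single (σ i) 1 : X d) x := by
        rw [Pi.single_apply, Pi.single_apply]
        have : σ.symm x = i ↔ x = σ i := by
          rw [Equiv.symm_apply_eq]
        simp only [this]
      simp only [hτ, hK, Pi.add_apply, h7]
      have : ∀ a b c : ZMod 2, a + b + (c + a) = c + b := by decide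
      exact this _ _ _
    ext T
    constructor
    · rintro ⟨U, ⟨i, hi, rfl⟩, rfl⟩
      exact ⟨σ i, by rw [hJ]; simpa using hi, h6 i⟩
    · rintro ⟨j, hj, rfl⟩
      refine ⟨N + Pi.single (σ.symm j) 1, ⟨σ.symm j, (hJ j k).1 hj, rfl⟩, ?_⟩
      rw [h6]
      simp
  have hP : g '' demi d = demi d := by
    rw [demi_eq, image_hull g τ hg]
    congr 1
    ext T
    constructor
    · rintro ⟨U, hU, rfl⟩
      exact (hpar U).trans hU
    · intro hT
      exact ⟨τ' T, (hpar' T).trans hT, hττ' T⟩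
  refine ⟨g.toIsometryEquiv, hP, fun i => ?_⟩
  have e1 := (hC d (by omega) _ (Φ.isFace i)).1
  have e2 := (hC d (by omega) _ (Ψ.isFace i)).1
  show g '' Φ.face i = Ψ.face i
  rw [e1, e2, image_hull g τ hg]
  congr 1
  rcases lt_or_ge (i : ℕ) s with hi | hi
  · rw [hB i hi, hB' i hi, hfB]
  · rw [hA i hi, hA' i hi, hfA]

theorem single_inj {d : ℕ} {i j : Fin d} (h : (Pi.single i 1 : X d) = Pi.single j 1) : i = j := by
  by_contra hne
  have := congrFun h i
  rw [Pi.single_eq_same, Pi.single_eq_of_ne hne] at this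
  exact absurd this (by decide)

theorem not_lt_ty (hC : S_CLS) (hF : S_FACE) (hM : S_MONO) (hI : S_FISO) (hT : S_DIST) {d : ℕ}
    (hd : 5 ≤ d) (Φ Ψ : Flag (demi d)) (s s' : ℕ) (h1 : Ty Φ s) (h2 : Ty Ψ s')
    (h : (flagSetoid (demi d)).r Φ Ψ) : ¬ s < s' := by
  intro hss
  obtain ⟨h3, -, N, π, hN, hB, hA⟩ := h1
  obtain ⟨-, h4', N', π', hN', hB', hA'⟩ := h2
  obtain ⟨g, hg1, hg2⟩ := h
  set i : Fin d := ⟨s, by omega⟩ with hi
  have e1 : Φ.face i = hull (fA N (J π s)) := by
    rw [(hC d (by omega) _ (Φ.isFace i)).1, hA i le_rfl]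
  have e2 : Ψ.face i = hull (fB N' (J π' (s + 1))) := by
    rw [(hC d (by omega) _ (Ψ.isFace i)).1, hB' i hss]
  rcases Nat.lt_or_ge s 4 with h5 | h5
  · have hs : s = 3 := by omega
    subst hs
    have hRk : Rk (fB N' (J π' 5)) 4 := Or.inr ⟨N', J π' 5, hN', card_J π' 5 hd, rfl⟩
    obtain ⟨h6, h7⟩ := hF d _ _ hRk
    have h8 : g.symm '' demi d = demi d := by
      conv_lhs => rw [← hg1]
      rw [← image_comp]
      simp
    have h9 := hI d (demi d) _ g.symm h8 h6
    obtain ⟨h10, m, h11⟩ := hC d (by omega) _ h9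
    have h12 : Φ.face i ⊆ g.symm '' hull (fB N' (J π' 5)) := by
      intro x hx
      refine ⟨g x, ?_, by simp⟩
      have h13 : g x ∈ Ψ.face i := by
        rw [← hg2 i]
        exact mem_image_of_mem _ hx
      rw [e2] at h13
      refine convexHull_mono (image_mono ?_) h13
      rintro T ⟨j, hj, rfl⟩
      exact ⟨j, J_mono π' (by norm_num) hj, rfl⟩
    have h13 : fA N (J π 3) ⊆ vert (g.symm '' hull (fB N' (J π' 5))) := by
      have h14 := hA i le_rfl
      rw [show ((i : Fin d) : ℕ) = 3 from rfl] at h14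
      rw [← h14]
      exact fun T hT => ⟨hT.1, h12 hT.2⟩
    rcases h11 with ⟨h14, N₂, Z₂, h15, h16, h17⟩ | ⟨N₂, I₂, h15, h16, h17⟩
    · rw [h17] at h13
      obtain ⟨h18, h19⟩ := hM.2.2.2.1 d N N₂ (J π 3) Z₂ (by rw [card_J π 3 (by omega)]) h13
      rcases Nat.lt_or_ge 3 Z₂.card with h20 | h20
      · obtain ⟨x, hx, y, hy, hxy⟩ := hT.2 d N₂ Z₂ h20
        rw [← h17, ← h10] at hx hy
        obtain ⟨x', hx', rfl⟩ := hx
        obtain ⟨y', hy', rfl⟩ := hy
        rw [g.symm.dist_eq] at hxy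
        exact absurd (hT.1 d _ _ x' hx' y' hy') (not_lt.2 hxy)
      · have h21 : J π 3 = Z₂ := Finset.eq_of_subset_of_card_le h18
          (by rw [card_J π 3 (by omega)]; exact h20)
        have h22 : g.symm '' hull (fB N' (J π' 5)) = Φ.face i := by
          rw [h10, h17, h19, ← h21, e1]
        have h23 : hull (fB N' (J π' 5)) = Ψ.face i := by
          rw [← hg2 i, ← h22, ← image_comp]
          simp
        have h24 : fB N' (J π' 5) = fB N' (J π' 4) := by
          have h25 := congrArg vert h23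
          rw [h7, hB' i hss] at h25
          exact h25
        have h25 : N' + Pi.single (π' ⟨4, by omega⟩) 1 ∈ fB N' (J π' 5) :=
          ⟨π' ⟨4, by omega⟩, by rw [mem_J]; simp, rfl⟩
        rw [h24] at h25
        obtain ⟨j, hj, hj2⟩ := h25
        have h26 := single_inj (add_left_cancel hj2)
        rw [← h26, mem_J] at hj
        simp at hj
    · rw [h17] at h13
      exact hM.2.2.1 d N N₂ (J π 3) I₂ (by rw [card_J π 3 (by omega)]) h13
  · obtain ⟨x, hx, y, hy, hxy⟩ := hT.2 d N (J π s) (by rw [card_J π s (by omega)]; exact h5)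
    rw [← e1] at hx hy
    have hx' : g x ∈ Ψ.face i := by rw [← hg2 i]; exact mem_image_of_mem _ hx
    have hy' : g y ∈ Ψ.face i := by rw [← hg2 i]; exact mem_image_of_mem _ hy
    rw [e2] at hx' hy'
    have := hT.1 d _ _ _ hx' _ hy'
    rw [g.dist_eq] at this
    exact absurd this (not_lt.2 hxy)

theorem exists_flag (hD : S_DIM) (hF : S_FACE) (hM : S_MONO) {d : ℕ} (hd : 3 ≤ d) (s : ℕ)
    (h3 : 3 ≤ s) (hs : s ≤ d) : ∃ Φ : Flag (demi d), Ty Φ s := by
  set N₀ : X d := Pi.single ⟨0, by omega⟩ 1 with hN₀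
  have hp : par N₀ = 1 := par_single _
  set π : Equiv.Perm (Fin d) := Equiv.refl _ with hπ
  have hmem : ∀ (x : Fin d) (k : ℕ), x ∈ J π k ↔ (x : ℕ) < k := fun x k => by rw [mem_J]; rfl
  set M : Fin d → Set (X d) := fun i =>
    if (i : ℕ) < s then fB N₀ (J π (i + 1)) else fA N₀ (J π i) with hMdef
  have hMB : ∀ i : Fin d, (i : ℕ) < s → M i = fB N₀ (J π (i + 1)) := fun i hi => if_pos hi
  have hMA : ∀ i : Fin d, s ≤ (i : ℕ) → M i = fA N₀ (J π i) := fun i hi => if_neg (not_lt.2 hi)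
  have hRk : ∀ i : Fin d, Rk (M i) i := by
    intro i
    rcases lt_or_ge (i : ℕ) s with hi | hi
    · exact Or.inr ⟨N₀, J π (i + 1), hp, card_J π _ i.2, hMB i hi⟩
    · exact Or.inl ⟨h3.trans hi, N₀, J π i, hp, card_J π _ i.2.le, hMA i hi⟩
  have hface := fun i => hF d _ _ (hRk i)
  have hsm : StrictMono M := by
    intro i j hij
    have hij' : (i : ℕ) < j := hij
    rcases lt_or_ge (j : ℕ) s with hj | hj
    · rw [hMB i (hij'.trans hj), hMB j hj]
      refine lt_of_le_of_ne ?_ fun heq => ?_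
      · rintro T ⟨x, hx, rfl⟩
        exact ⟨x, J_mono π (by omega) hx, rfl⟩
      · have h4 : N₀ + Pi.single j 1 ∈ fB N₀ (J π (j + 1)) := ⟨j, by rw [hmem]; omega, rfl⟩
        rw [← heq] at h4
        obtain ⟨x, hx, hx2⟩ := h4
        have h5 := single_inj (add_left_cancel hx2)
        rw [← h5, hmem] at hx
        omega
    · rw [hMA j hj]
      rcases lt_or_ge (i : ℕ) s with hi | hi
      · rw [hMB i hi]
        refine lt_of_le_of_ne ?_ fun heq => ?_
        · rintro T ⟨x, hx, rfl⟩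
          rw [hmem] at hx
          refine ⟨?_, fun y hy => ?_⟩
          · rw [par_add, hp, par_single]
            decide
          · rw [hmem] at hy
            have h6 : y ≠ x := fun h => by rw [h] at hy; omega
            simp [h6]
        · exact hM.2.2.1 d N₀ N₀ (J π j) (J π (i + 1))
            (by rw [card_J π _ j.2.le]; omega) heq.ge
      · rw [hMA i hi]
        refine lt_of_le_of_ne ?_ fun heq => ?_
        · rintro T ⟨h4, h5⟩
          exact ⟨h4, fun x hx => h5 x fun h => hx (J_mono π hij'.le h)⟩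
        · have h4 := (hM.2.2.2.1 d N₀ N₀ (J π j) (J π i)
            (by rw [card_J π _ j.2.le]; omega) heq.ge).1
          have h5 := Finset.card_le_card h4
          rw [card_J π _ j.2.le, card_J π _ i.2.le] at h5
          omega
  have hfsm : StrictMono fun i => hull (M i) := by
    intro i j hij
    refine lt_of_le_of_ne (convexHull_mono (image_mono (hsm hij).le)) fun heq => ?_
    have := congrArg vert heq
    simp only at this
    rw [(hface i).2, (hface j).2] at this
    exact (hsm hij).ne this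
  have hall : Rk (fA N₀ Finset.univ) d := Or.inl ⟨hd, N₀, Finset.univ, hp, by simp, rfl⟩
  have hne : ∀ i, hull (M i) ≠ demi d := by
    intro i heq
    have h4 : fA N₀ (Finset.univ : Finset (Fin d)) = {T : X d | par T = 0} :=
      (hM.2.1 d _ _ hall).2 rfl
    rw [demi_eq, ← h4] at heq
    have h5 := congrArg vert heq
    rw [(hface i).2, (hF d _ _ hall).2] at h5
    rcases lt_or_ge (i : ℕ) s with hi | hi
    · rw [hMB i hi] at h5
      exact hM.2.2.1 d N₀ N₀ Finset.univ (J π (i + 1)) (by simpa using hd) h5.ge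
    · rw [hMA i hi] at h5
      have h6 := Finset.card_le_card
        (hM.2.2.2.1 d N₀ N₀ Finset.univ (J π i) (by simpa using hd) h5.ge).1
      rw [card_J π _ i.2.le, Finset.card_univ, Fintype.card_fin] at h6
      have := i.2
      omega
  refine ⟨⟨fun i => hull (M i), fun i => (hface i).1,
    hD.1 d (demi d) _ (fun i => (hface i).1) hfsm hne, hfsm.monotone⟩, h3, hs, N₀, π, hp, ?_, ?_⟩
  · intro i hi
    show vert (hull (M i)) = _
    rw [(hface i).2, hMB i hi]
  · intro i hi
    show vert (hull (M i)) = _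
    rw [(hface i).2, hMA i hi]

theorem main (hD : S_DIM) (hC : S_CLS) (hF : S_FACE) (hM : S_MONO) (hN : S_NF) (hS : S_SYM)
    (hI : S_FISO) (hT : S_DIST) (hInt : S_INT) : Main := by
  have h1 : ∀ d : ℕ, 5 ≤ d → IsKOrbit (d - 2) (demi d) := by
    intro d hd
    refine ⟨⟨⟨(Set.toFinite (pt '' {T : X d | par T = 0})).toFinset, ?_⟩, hInt d (by omega)⟩, ?_⟩
    · rw [Set.Finite.coe_toFinset, demi_eq]
      rfl
    · choose s hs using exists_ty hD hC hM hN hInt (d := d) (by omega)
      have hinv : ∀ Φ Ψ : Flag (demi d), (flagSetoid (demi d)).r Φ Ψ → s Φ = s Ψ := by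
        intro Φ Ψ h
        have h2 := not_lt_ty hC hF hM hI hT hd Φ Ψ _ _ (hs Φ) (hs Ψ) h
        have h3 := not_lt_ty hC hF hM hI hT hd Ψ Φ _ _ (hs Ψ) (hs Φ)
          ((flagSetoid (demi d)).iseqv.symm h)
        omega
      let f : Quotient (flagSetoid (demi d)) → Set.Icc 3 d :=
        Quotient.lift (fun Φ => (⟨s Φ, (hs Φ).1, (hs Φ).2.1⟩ : Set.Icc 3 d))
          (fun Φ Ψ h => Subtype.ext (hinv Φ Ψ h))
      have hf : Function.Bijective f := by
        constructor
        · intro a b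
          refine Quotient.inductionOn₂ a b fun Φ Ψ h => ?_
          have h2 : s Φ = s Ψ := congrArg Subtype.val h
          exact Quotient.sound (equiv_of_ty hC hS (by omega) Φ Ψ (s Φ) (hs Φ) (h2 ▸ hs Ψ))
        · rintro ⟨t, ht1, ht2⟩
          obtain ⟨Φ, hΦ⟩ := exists_flag hD hF hM (by omega : 3 ≤ d) t ht1 ht2
          refine ⟨Quotient.mk _ Φ, Subtype.ext ?_⟩
          show s Φ = t
          have hr : (flagSetoid (demi d)).r Φ Φ := (flagSetoid (demi d)).iseqv.refl Φ
          have h2 := not_lt_ty hC hF hM hI hT hd Φ Φ _ _ (hs Φ) hΦ hr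
          have h3 := not_lt_ty hC hF hM hI hT hd Φ Φ _ _ hΦ (hs Φ) hr
          omega
      rw [Nat.card_eq_of_bijective f hf, Nat.card_eq_fintype_card]
      simp
  refine ⟨h1, fun k hk N hN' => ?_⟩
  have h2 := hN' (k + 2) (demi (k + 2)) (h1 (k + 2) (by omega))
  omega

end Pool.Agent.T9h98.DC
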