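import Mathlib

/-!
# Flag orbits of convex polytopes (MP_727bc7_co): definitions
-/

set_option autoImplicit false

open Set

namespace Pool.Agent.T9h98.DC

/-- Euclidean space of dimension `d` -/
abbrev E (d : ℕ) : Type := EuclideanSpace ℝ (Fin d)

/-- a convex `d`-polytope: the convex hull of finitely many points, with nonempty interior -/
def IsPolytope {d : ℕ} (P : Set (E d)) : Prop :=
  (∃ s : Finset (E d), P = convexHull ℝ (s : Set (E d))) ∧ (interior P).Nonempty

/-- a nonempty face: the set of the points of `P` where a linear functional is maximal on `P` -/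
def IsFace {d : ℕ} (P F : Set (E d)) : Prop := F.Nonempty ∧ IsExposed ℝ P F

/-- a flag `F_0 ⊆ F_1 ⊆ ⋯ ⊆ F_(d-1)`, `F_i` a face of dimension `i` -/
@[ext] structure Flag {d : ℕ} (P : Set (E d)) where
  face : Fin d → Set (E d)
  isFace : ∀ i, IsFace P (face i)
  dim : ∀ i, Module.finrank ℝ (vectorSpan ℝ (face i)) = i
  mono : Monotone face

/-- two flags are equivalent if an isometry of the space which maps `P` onto `P` maps one to the other -/
def flagSetoid {d : ℕ} (P : Set (E d)) : Setoid (Flag P) where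
  r Φ Ψ := ∃ g : E d ≃ᵢ E d, g '' P = P ∧ ∀ i, g '' Φ.face i = Ψ.face i
  iseqv := by
    refine ⟨fun Φ => ⟨IsometryEquiv.refl _, image_id P, fun i => image_id _⟩, ?_, ?_⟩
    · rintro Φ Ψ ⟨g, h1, h2⟩
      refine ⟨g.symm, ?_, fun i => ?_⟩
      · conv_lhs => rw [← h1]
        rw [← image_comp]
        simp
      · rw [← h2 i, ← image_comp]
        simp
    · rintro Φ Ψ Χ ⟨g, h1, h2⟩ ⟨h, h3, h4⟩
      refine ⟨g.trans h, ?_, fun i => ?_⟩
      · rw [show ⇑(g.trans h) = h ∘ g from rfl, image_comp, h1, h3]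
      · rw [show ⇑(g.trans h) = h ∘ g from rfl, image_comp, h2, h4]

/-- `P` is a geometrically `k`-orbit convex `d`-polytope -/
def IsKOrbit {d : ℕ} (k : ℕ) (P : Set (E d)) : Prop :=
  IsPolytope P ∧ Nat.card (Quotient (flagSetoid P)) = k

/-- the demicube -/
def demi (d : ℕ) : Set (E d) :=
  convexHull ℝ {x | (∀ i, x i = 1 ∨ x i = -1) ∧ ∏ i, x i = 1}

end Pool.Agent.T9h98.DC
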